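import Mathlib
import Pool.Agent.H.MP_15d78c_co.B

set_option autoImplicit false

namespace Pool.Agent.H.MP_f1e34e_co

open Finset Module

variable {F : Type} [Field F]

section
variable {V : Type} [AddCommGroup V] [Module F V] [FiniteDimensional F V]

noncomputable def cd (Y : Submodule F V) : ℕ := finrank F (V ⧸ Y)

theorem cd_add (Y : Submodule F V) : cd Y + finrank F Y = finrank F V :=
  Y.finrank_quotient_add_finrank

theorem cd_anti {Y Z : Submodule F V} (h : Y ≤ Z) : cd Z ≤ cd Y := by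
  have := Submodule.finrank_mono h
  have := cd_add Y
  have := cd_add Z
  omega

theorem cd_eq {Y Z : Submodule F V} (h : Y ≤ Z) (e : cd Y ≤ cd Z) : Y = Z := by
  have := cd_add Y
  have := cd_add Z
  exact Submodule.eq_of_le_of_finrank_le h (by omega)

theorem cd_inf (Y Z : Submodule F V) : cd (Y ⊓ Z) ≤ cd Y + cd Z := by
  have := Submodule.finrank_sup_add_finrank_inf_eq Y Z
  have := cd_add Y
  have := cd_add Z
  have := cd_add (Y ⊓ Z)
  have := cd_add (Y ⊔ Z)
  omega

theorem cd_top : cd (⊤ : Submodule F V) = 0 := by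
  have := cd_add (⊤ : Submodule F V)
  rw [finrank_top] at this
  omega

theorem cd_iInf {N k : ℕ} (U : Fin N → Submodule F V) (h : ∀ t, cd (U t) ≤ k) :
    cd (⨅ t, U t) ≤ N * k := by
  have : ∀ s : Finset (Fin N), cd (s.inf U) ≤ s.card * k := by
    intro s
    induction s using Finset.induction_on with
    | empty => simp [cd_top]
    | insert a s ha ih =>
      rw [inf_insert, card_insert_of_notMem ha]
      have := cd_inf (U a) (s.inf U)
      have := h a
      nlinarith
  simpa [Finset.inf_univ_eq_iInf] using this univ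

theorem coords (Y : Submodule F V) : ∃ (φ : V →ₗ[F] (Fin (cd Y) → F))
    (g : (Fin (cd Y) → F) →ₗ[F] V), (∀ e, φ (g e) = e) ∧ ∀ w, φ w = 0 ↔ w ∈ Y := by
  let e := (Module.finBasis F (V ⧸ Y)).equivFun
  obtain ⟨g, hg⟩ := LinearMap.exists_rightInverse_of_surjective (e.toLinearMap ∘ₗ Y.mkQ)
    (LinearMap.range_eq_top.2 (e.surjective.comp Y.mkQ_surjective))
  refine ⟨e.toLinearMap ∘ₗ Y.mkQ, g, fun x => LinearMap.congr_fun hg x, fun w => ?_⟩
  exact (e.map_eq_zero_iff).trans (Submodule.Quotient.mk_eq_zero Y)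

end

theorem geninv {A B : Type} [AddCommGroup A] [Module F A] [AddCommGroup B] [Module F B]
    (f : A →ₗ[F] B) : ∃ g : B →ₗ[F] A, ∀ x, f (g (f x)) = f x := by
  obtain ⟨s, hs⟩ := LinearMap.exists_rightInverse_of_surjective f.rangeRestrict
    (LinearMap.range_rangeRestrict f)
  obtain ⟨r, hr⟩ := LinearMap.exists_leftInverse_of_injective (LinearMap.range f).subtype
    (Submodule.ker_subtype _)
  refine ⟨s ∘ₗ r, fun x => ?_⟩
  have h1 := LinearMap.congr_fun hr ⟨f x, x, rfl⟩
  have h2 := LinearMap.congr_fun hs ⟨f x, x, rfl⟩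
  simp only [LinearMap.comp_apply, Submodule.subtype_apply, LinearMap.id_apply] at h1 h2 ⊢
  rw [h1]
  exact congrArg Subtype.val h2

def CRT {V : Type} [AddCommGroup V] [Module F V] {N : ℕ} (Z : Submodule F V)
    (U : Fin N → Submodule F V) : Prop :=
  ∀ a : Fin N → V, (∀ t, a t ∈ Z) → ∃ z ∈ Z, ∀ t, z - a t ∈ U t

theorem adapted {V : Type} [AddCommGroup V] [Module F V] [FiniteDimensional F V] {N : ℕ}
    {Z : Submodule F V} {U : Fin N → Submodule F V} (h : CRT Z U) :
    ∃ l : Fin (cd Z) → V, ∀ t, ∀ w ∈ U t ⊔ Z, ∃ e : Fin (cd Z) → F,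
      ∑ i, e i • l i ∈ U t ∧ w - ∑ i, e i • l i ∈ Z := by
  obtain ⟨φ, g, h1, h2⟩ := coords Z
  choose G hG using fun t => geninv (φ ∘ₗ (U t).subtype)
  simp only [LinearMap.comp_apply, Submodule.subtype_apply] at hG
  have hz : ∀ t e, (G t e : V) - g (φ (G t e)) ∈ Z := fun t e => by
    rw [← h2, map_sub, h1, sub_self]
  choose z z1 z2 using fun i : Fin (cd Z) =>
    h (fun t => (G t (Pi.single i 1) : V) - g (φ (G t (Pi.single i 1)))) fun t => hz t _
  refine ⟨fun i => g (Pi.single i 1) + z i, fun t w hw => ?_⟩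
  obtain ⟨u, hu, y, hy, rfl⟩ := Submodule.mem_sup.1 hw
  have ex : ∑ i, φ u i • (Pi.single i 1 : Fin (cd Z) → F) = φ u := by
    funext x
    simp [Finset.sum_apply, Pi.single_apply]
  refine ⟨φ u, ?_, ?_⟩
  · let σ : (Fin (cd Z) → F) →ₗ[F] V :=
      g + ((U t).subtype ∘ₗ G t - g ∘ₗ φ ∘ₗ (U t).subtype ∘ₗ G t)
    have e1 : σ (φ u) = G t (φ u) := by
      have := hG t ⟨u, hu⟩
      simp only [σ, LinearMap.add_apply, LinearMap.sub_apply, LinearMap.comp_apply,
        Submodule.subtype_apply, this]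
      abel
    have e2 : ∑ i, φ u i • (g (Pi.single i 1) + z i) = σ (φ u) + ∑ i, φ u i •
        (z i - ((G t (Pi.single i 1) : V) - g (φ (G t (Pi.single i 1))))) := by
      conv_rhs => rw [← ex, map_sum, ex, ← sum_add_distrib]
      refine sum_congr rfl fun i _ => ?_
      rw [map_smul, ← smul_add]
      congr 1
      simp only [σ, LinearMap.add_apply, LinearMap.sub_apply, LinearMap.comp_apply,
        Submodule.subtype_apply]
      abel
    rw [e2, e1]
    exact add_mem (G t (φ u)).2 (sum_mem fun i _ => Submodule.smul_mem _ _ (z2 i t))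
  · rw [← h2, map_sub, map_add, (h2 y).2 hy, map_sum]
    simp only [map_smul, map_add, h1, (h2 _).2 (z1 _), add_zero, ex, sub_self]

variable {d : ℕ} {W : Fin d → Type} [∀ j, AddCommGroup (W j)] [∀ j, Module F (W j)]
  [∀ j, FiniteDimensional F (W j)]

def Null (τ : MultilinearMap F W F) (U : ∀ j, Submodule F (W j)) : Prop :=
  ∀ u, (∀ j, u j ∈ U j) → τ u = 0

theorem key (τ : MultilinearMap F W F) {c N : ℕ} (Z : ∀ j, Submodule F (W j))
    (hZ : ∀ j, cd (Z j) ≤ c) (U : Fin N → ∀ j, Submodule F (W j)) (hU : ∀ t, Null τ (U t))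
    (hc : ∀ j, CRT (Z j) (fun t => U t j)) (hN : (c + 1) ^ d * d < N) :
    ∃ t, Null τ (fun j => U t j ⊔ Z j) := by
  classical
  choose l hl using fun j => adapted (hc j)
  let Y := ∀ j, {p : Option (Fin N) × W j // ∀ s, some s ≠ p.1 → p.2 ∈ U s j}
  have : Nonempty Y := ⟨fun j => ⟨(none, 0), fun _ _ => zero_mem _⟩⟩
  let vec : Y → ∀ j, Option (Fin (cd (Z j))) → W j := fun y j o => o.elim (y j).1.2 (l j)
  obtain ⟨y, hy⟩ := Pool.Agent.H.MP_15d78c_co.span_pts
    (fun (y : Y) (o : ∀ j, Option (Fin (cd (Z j)))) => τ fun j => vec y j (o j))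
  have hcard : Fintype.card (∀ j, Option (Fin (cd (Z j)))) ≤ (c + 1) ^ d := by
    rw [Fintype.card_pi]
    simp only [Fintype.card_option, Fintype.card_fin]
    have := prod_le_pow_card univ (fun j => cd (Z j) + 1) (c + 1) fun j _ => by
      have := hZ j; omega
    simpa using this
  have : ∃ t, ∀ r j, some t ≠ (y r j).1.1 := by
    by_contra hn
    push Not at hn
    choose r j h using hn
    have := Fintype.card_le_of_injective (fun t => (r t, j t)) (by
      intro s t e
      simp only [Prod.mk.injEq] at e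
      have h1 := h s
      rw [e.1, e.2, ← h t] at h1
      exact Option.some.inj h1)
    simp only [Fintype.card_fin, Fintype.card_prod] at this
    have := Nat.mul_le_mul_right d hcard
    omega
  obtain ⟨t, ht⟩ := this
  refine ⟨t, fun w hw => ?_⟩
  choose e e1 e2 using fun j => hl j t (w j) (hw j)
  have ex : ∀ y : Y, ∑ o : ∀ j, Option (Fin (cd (Z j))), (∏ j, (o j).elim 1 (e j)) *
      τ (fun j => vec y j (o j)) = τ fun j => (y j).1.2 + ∑ i, e j i • l j i := by
    intro y
    have := τ.map_sum (fun j (o : Option (Fin (cd (Z j)))) => (o.elim 1 (e j) : F) • vec y j o)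
    simp only [MultilinearMap.map_smul_univ, smul_eq_mul, Fintype.sum_option, vec,
      Option.elim_none, Option.elim_some, one_smul] at this ⊢
    exact this.symm
  have h1 := hy (fun o => ∏ j, (o j).elim 1 (e j)) fun r => by
    rw [ex]
    exact hU t _ fun j => add_mem ((y r j).2 t (ht r j)) (e1 j)
  simp only [ex] at h1
  have h2 : ∀ j, ∃ p : Option (Fin N) → W j, (∀ o s, some s ≠ o → p o ∈ U s j) ∧
      ∑ o, p o = w j - ∑ i, e j i • l j i := by
    intro j
    choose p p1 p2 using fun s : Fin N => hc j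
      (fun s' => if s' = s then w j - ∑ i, e j i • l j i else 0) fun s' => by
        split_ifs
        · exact e2 j
        · exact zero_mem _
    refine ⟨fun o => o.elim (w j - ∑ i, e j i • l j i - ∑ s, p s) p, ?_, ?_⟩
    · rintro (_ | s') s hs
      · have : w j - ∑ i, e j i • l j i - ∑ s', p s' = -∑ s', (p s' -
            (if s = s' then w j - ∑ i, e j i • l j i else 0)) := by
          rw [sum_sub_distrib, sum_ite_eq, if_pos (mem_univ _)]; abel
        simp only [Option.elim_none]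
        rw [this]
        exact neg_mem (sum_mem fun s' _ => p2 s' s)
      · have := p2 s' s
        rw [if_neg (fun h => hs (congrArg some h)), sub_zero] at this
        exact this
    · simp
  choose p p1 p2 using h2
  have h3 : w = fun j => ∑ o : Option (Option (Fin N)), (o.elim (-(N : F)) fun _ => 1) •
      ((o.elim 0 (p j)) + ∑ i, e j i • l j i) := by
    funext j
    rw [Fintype.sum_option]
    simp only [Option.elim_none, Option.elim_some, one_smul, sum_add_distrib, p2, sum_const,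
      card_univ, Fintype.card_option, Fintype.card_fin, zero_add]
    rw [← Nat.cast_smul_eq_nsmul F]
    push_cast
    module
  rw [h3, τ.map_sum]
  refine sum_eq_zero fun o _ => ?_
  rw [MultilinearMap.map_smul_univ]
  have := h1 fun j => ⟨((o j).elim none id, (o j).elim 0 (p j)), by
    intro s hs
    cases h : o j with
    | none => exact zero_mem _
    | some q => rw [h] at hs; exact p1 j q s hs⟩
  rw [this, smul_zero]

theorem greedy (τ : MultilinearMap F W F) {k c : ℕ}
    (hk : ∀ U, Null τ U → k ≤ ∑ j, cd (U j)) (Z : ∀ j, Submodule F (W j))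
    (hZ : ∀ j, cd (Z j) ≤ c) : ∃ Z' : ∀ j, Submodule F (W j),
      (∀ j, Z' j ≤ Z j ∧ cd (Z' j) ≤ c + (c + 1) ^ d * d * k) ∧
      ∀ U, Null τ U → ∑ j, cd (U j) ≤ k → (∀ j, Z j ≤ U j) ∨ ∃ j, ¬ Z j ≤ U j ⊔ Z' j := by
  by_contra hn
  push Not at hn
  have : ∀ N ≤ (c + 1) ^ d * d + 1, ∃ U : Fin N → ∀ j, Submodule F (W j),
      (∀ t, Null τ (U t) ∧ ∑ j, cd (U t j) ≤ k ∧ ∃ j, ¬ Z j ≤ U t j) ∧
      ∀ j, CRT (Z j) (fun t => U t j) := by
    intro N
    induction N with
    | zero => exact fun _ => ⟨Fin.elim0, fun t => t.elim0, fun j a _ => ⟨0, zero_mem _, fun t => t.elim0⟩⟩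
    | succ N ih =>
      intro hN
      obtain ⟨U, h1, h2⟩ := ih (by omega)
      obtain ⟨U', a1, a2, a3, a4⟩ := hn (fun j => Z j ⊓ ⨅ t, U t j) fun j => ⟨inf_le_left, by
        have := cd_inf (Z j) (⨅ t, U t j)
        have := cd_iInf (k := k) (fun t => U t j) fun t =>
          (single_le_sum (f := fun j => cd (U t j)) (fun _ _ => Nat.zero_le _)
            (mem_univ j)).trans (h1 t).2.1
        have := hZ j
        have := Nat.mul_le_mul_right k (show N ≤ (c + 1) ^ d * d by omega)
        omega⟩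
      refine ⟨Fin.cons U' U, fun t => ?_, fun j a ha => ?_⟩
      · refine Fin.cases ?_ (fun t => ?_) t
        · exact ⟨a1, a2, a3⟩
        · exact h1 t
      · obtain ⟨z, z1, z2⟩ := h2 j (fun t => a t.succ) fun t => ha _
        obtain ⟨u, hu, y, hy, e⟩ := Submodule.mem_sup.1 (a4 j (sub_mem (ha 0) z1))
        refine ⟨z + y, add_mem z1 hy.1, fun t => ?_⟩
        refine Fin.cases ?_ (fun t => ?_) t
        · have : z + y - a 0 = -u := by rw [eq_sub_iff_add_eq] at e; rw [← e]; abel
          rw [this]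
          exact neg_mem hu
        · have : z + y - a t.succ = (z - a t.succ) + y := by abel
          rw [this]
          exact add_mem (z2 t) ((Submodule.mem_iInf _).1 hy.2 t)
  obtain ⟨U, h1, h2⟩ := this _ le_rfl
  obtain ⟨t, ht⟩ := key τ Z hZ U (fun t => (h1 t).1) h2 (by omega)
  obtain ⟨-, b2, j, b3⟩ := h1 t
  have b4 := hk _ ht
  have b5 := (sum_eq_sum_iff_of_le (s := univ) (f := fun j => cd (U t j ⊔ Z j))
    (g := fun j => cd (U t j)) fun j _ => cd_anti le_sup_left).1
    (le_antisymm (sum_le_sum fun j _ => cd_anti le_sup_left) (b2.trans b4)) j (mem_univ j)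
  exact b3 (by rw [cd_eq le_sup_left b5.ge]; exact le_sup_right)

def CC (d k : ℕ) : ℕ → ℕ
  | 0 => 0
  | r + 1 => CC d k r + (CC d k r + 1) ^ d * d * k

theorem bound (τ : MultilinearMap F W F) {k : ℕ} (hk : ∀ U, Null τ U → k ≤ ∑ j, cd (U j)) :
    ∃ Z : ∀ j, Submodule F (W j), (∀ j, cd (Z j) ≤ CC d k (k + 1)) ∧
      ∀ U, Null τ U → ∑ j, cd (U j) ≤ k → ∀ j, Z j ≤ U j := by
  have : ∀ r, ∃ Z : ∀ j, Submodule F (W j), (∀ j, cd (Z j) ≤ CC d k r) ∧
      ∀ U, Null τ U → ∑ j, cd (U j) ≤ k → (∀ j, Z j ≤ U j) ∨ r ≤ ∑ j, cd (U j ⊔ Z j) := by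
    intro r
    induction r with
    | zero => exact ⟨fun _ => ⊤, fun j => cd_top.le, fun _ _ _ => Or.inr (Nat.zero_le _)⟩
    | succ r ih =>
      obtain ⟨Z, z1, z2⟩ := ih
      obtain ⟨Z', y1, y2⟩ := greedy τ hk Z z1
      refine ⟨Z', fun j => (y1 j).2, fun U u1 u2 => ?_⟩
      rcases y2 U u1 u2 with h | ⟨j, h⟩
      · exact Or.inl fun j => (y1 j).1.trans (h j)
      rcases z2 U u1 u2 with h' | h'
      · exact Or.inl fun j => (y1 j).1.trans (h' j)
      refine Or.inr (lt_of_le_of_lt h' (sum_lt_sum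
        (fun j _ => cd_anti (sup_le_sup_left (y1 j).1 _)) ⟨j, mem_univ _, ?_⟩))
      by_contra hc
      exact h (by rw [cd_eq (sup_le_sup_left (y1 j).1 _) (not_lt.1 hc)]; exact le_sup_right)
  obtain ⟨Z, z1, z2⟩ := this (k + 1)
  refine ⟨Z, z1, fun U u1 u2 => (z2 U u1 u2).resolve_right fun h => ?_⟩
  have : ∑ j, cd (U j ⊔ Z j) ≤ ∑ j, cd (U j) := sum_le_sum fun j _ => cd_anti le_sup_left
  omega

end Pool.Agent.H.MP_f1e34e_co
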